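import Pool.Agent.Helper58_MOO.Stmts

set_option autoImplicit false

open Cardinal
open Pool.Agent.Helper69_LOTS

namespace Pool.Agent.MOO.H75

open Pool.Agent.MOO

theorem pre_succ (z : ℕ → Om) (k : ℕ) : pre z (k + 1) = pre z k ++ [z k] := by
  unfold pre
  rw [List.range_succ, List.map_append]
  rfl

theorem pre_congr (z z' : ℕ → Om) (k : ℕ) (h : ∀ j, j < k → z j = z' j) : pre z k = pre z' k := by
  unfold pre
  apply List.map_congr_left
  intro j hj
  exact h j (List.mem_range.1 hj)

theorem mem_pre (z : ℕ → Om) (k : ℕ) (ξ : Om) (h : ξ ∈ pre z k) : ∃ j, j < k ∧ ξ = z j := by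
  unfold pre at h
  rw [List.mem_map] at h
  obtain ⟨j, hj, rfl⟩ := h
  exact ⟨j, List.mem_range.1 hj, rfl⟩

theorem pre_update (h : ℕ → Om) (k : ℕ) (ξ : Om) :
    pre (Function.update h k ξ) (k + 1) = pre h k ++ [ξ] := by
  rw [pre_succ, Function.update_self]
  congr 1
  apply pre_congr
  intro j hj
  rw [Function.update_of_ne (by omega)]

theorem ram : RamStmt := by
  intro x y ln c hx hy hln N hN n L px py hP z W Nc a b a' b' hz hW hzW hNc hI
  have key : ∀ d k, k + d = L → ∃ W', W' ∈ N ∧ ln (pre z k) ∈ W' ∧
      ∀ h : ℕ → Om, (∀ j, j < k → h j < dlt N) → ln (pre h k) ∈ W' →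
      ∃ z' : ℕ → Om, (∀ j, j < k → z' j = h j) ∧ (∀ j, j < L → z' j < dlt N) ∧
        ln (pre z' L) ∈ W ∧ ∀ i,
          (k ≤ px i → (a i : ℝ) < x (z' (px i)) ∧ x (z' (px i)) < b i) ∧
          (k ≤ py i → ((a' i : ℝ) < y (z' (py i)) ∧ y (z' (py i)) < b' i) ∧
            (x (z' (px i)) < x (z (px i)) ↔ y (z' (py i)) < y (z (py i)))) := by
    intro d
    induction d with
    | zero =>
      intro k hk
      have hkL : k = L := by omega
      subst hkL
      refine ⟨W, hW, hzW, ?_⟩
      intro h hh hhW
      refine ⟨h, fun _ _ => rfl, hh, hhW, ?_⟩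
      intro i
      have h1 := hP.lt i
      have h2 := hP.ltL i
      exact ⟨fun h => absurd h (by omega), fun h => absurd h (by omega)⟩
    | succ d ih =>
      intro k hk
      obtain ⟨W1, hW1, hzW1, hc⟩ := ih (k + 1) (by omega)
      have hkL : k < L := by omega
      rw [pre_succ] at hzW1
      rcases hP.cover k hkL with ⟨i, hi⟩ | ⟨i, hi⟩
      · -- type x
        refine ⟨_, hN.o1 W1 hW1 (a i) (b i), ?_, ?_⟩
        · refine ⟨pre z k, rfl, z k, ?_, ?_, hzW1⟩
          · rw [← hi]; exact (hI i).1
          · rw [← hi]; exact (hI i).2.1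
        · intro h hh hhW
          obtain ⟨h0, hh0, hex⟩ := hhW
          have hh0' := hln hh0
          subst hh0'
          obtain ⟨ξ, hξ, hξa, hξb, hξW⟩ := hN.o3 W1 hW1 (pre h k)
            (by
              intro ξ hξ
              obtain ⟨j, hj, rfl⟩ := mem_pre h k ξ hξ
              exact hh j hj) (a i) (b i) hex
          obtain ⟨z', h1, h2, h3, h4⟩ := hc (Function.update h k ξ)
            (by
              intro j hj
              by_cases hjk : j = k
              · subst hjk; rw [Function.update_self]; exact hξ
              · rw [Function.update_of_ne hjk]; exact hh j (by omega))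
            (by rw [pre_update]; exact hξW)
          have hz'k : z' k = ξ := by rw [h1 k (by omega), Function.update_self]
          refine ⟨z', ?_, h2, h3, ?_⟩
          · intro j hj
            rw [h1 j (by omega), Function.update_of_ne (by omega)]
          · intro i'
            refine ⟨?_, ?_⟩
            · intro hk'
              by_cases he : k = px i'
              · have : i' = i := hP.xinj (by rw [← he, hi])
                subst this
                rw [← he, hz'k]
                exact ⟨hξa, hξb⟩
              · exact (h4 i').1 (by omega)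
            · intro hk'
              have : k ≠ py i' := by rw [← hi]; exact hP.ne i i'
              exact (h4 i').2 (by omega)
      · -- type y
        obtain ⟨hsoft, hsub, hlt, hge⟩ := hNc i
        rw [hi] at hlt hge
        have hIi := hI i
        rw [hi] at hIi
        obtain ⟨⟨β1, hb1, hb1', hb1W⟩, ⟨β2, hb2, hb2', hb2W⟩⟩ := hsoft.e1 W1 (hsub hW1) (pre z k)
          (by
            intro ξ hξ
            obtain ⟨j, hj, rfl⟩ := mem_pre z k ξ hξ
            exact hlt j hj) (z k) hge hzW1 (a' i) (b' i) hIi.2.2.1 hIi.2.2.2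
        obtain ⟨r1, hr1, hr1'⟩ := exists_rat_btwn hb1'
        obtain ⟨r2, hr2, hr2'⟩ := exists_rat_btwn hb2
        refine ⟨_, hN.o2 W1 hW1 (a' i) r1 r2 (b' i), ?_, ?_⟩
        · exact ⟨pre z k, rfl, ⟨β1, hb1, hr1, hb1W⟩, ⟨β2, hr2', hb2', hb2W⟩⟩
        · intro h hh hhW
          obtain ⟨h0, hh0, hexL, hexR⟩ := hhW
          have hh0' := hln hh0
          subst hh0'
          have hent : ∀ ξ ∈ pre h k, ξ < dlt N := by
            intro ξ hξ
            obtain ⟨j, hj, rfl⟩ := mem_pre h k ξ hξ
            exact hh j hj
          have hpk : px i < k := by rw [← hi]; exact hP.lt i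
          -- choose β
          have hβ : ∃ β, β < dlt N ∧ ln (pre h k ++ [β]) ∈ W1 ∧ (a' i : ℝ) < y β ∧ y β < b' i ∧
              (x (h (px i)) < x (z (px i)) ↔ y β < y (z k)) := by
            by_cases hcase : x (h (px i)) < x (z (px i))
            · obtain ⟨β, h1, h2, h3, h4⟩ := hN.o4 W1 hW1 (pre h k) hent (a' i) r1 hexL
              have h5 : y β < y (z k) := lt_trans h3 hr1'
              exact ⟨β, h1, h4, h2, lt_trans h5 hIi.2.2.2, by simp [hcase, h5]⟩
            · obtain ⟨β, h1, h2, h3, h4⟩ := hN.o4 W1 hW1 (pre h k) hent r2 (b' i) hexR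
              have h5 : y (z k) < y β := lt_trans hr2 h2
              exact ⟨β, h1, h4, lt_trans hIi.2.2.1 h5, h3,
                ⟨fun h => absurd h hcase, fun h => absurd (lt_trans h5 h) (lt_irrefl _)⟩⟩
          obtain ⟨β, hβN, hβW, hβa, hβb, hβs⟩ := hβ
          obtain ⟨z', h1, h2, h3, h4⟩ := hc (Function.update h k β)
            (by
              intro j hj
              by_cases hjk : j = k
              · subst hjk; rw [Function.update_self]; exact hβN
              · rw [Function.update_of_ne hjk]; exact hh j (by omega))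
            (by rw [pre_update]; exact hβW)
          have hz'k : z' k = β := by rw [h1 k (by omega), Function.update_self]
          refine ⟨z', ?_, h2, h3, ?_⟩
          · intro j hj
            rw [h1 j (by omega), Function.update_of_ne (by omega)]
          · intro i'
            refine ⟨?_, ?_⟩
            · intro hk'
              have : k ≠ px i' := by rw [← hi]; exact (hP.ne i' i).symm
              exact (h4 i').1 (by omega)
            · intro hk'
              by_cases he : k = py i'
              · have : i' = i := hP.yinj (by rw [← he, hi])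
                subst this
                rw [← he, hz'k]
                refine ⟨⟨hβa, hβb⟩, ?_⟩
                rw [h1 (px i') (by omega), Function.update_of_ne (by omega)]
                exact hβs
              · exact (h4 i').2 (by omega)
  obtain ⟨W0, -, hzW0, hc⟩ := key L 0 (by omega)
  obtain ⟨z', -, h2, h3, h4⟩ := hc (fun _ => z 0) (fun j hj => absurd hj (by omega))
    (by simpa [pre] using hzW0)
  refine ⟨z', h2, h3, fun i => ?_⟩
  have h5 := (h4 i).1 (Nat.zero_le _)
  have h6 := (h4 i).2 (Nat.zero_le _)
  exact ⟨⟨h5.1, h5.2, h6.1.1, h6.1.2⟩, h6.2⟩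

end Pool.Agent.MOO.H75
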