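import Pool.Agent.Helper58_MOO.Stmts

set_option autoImplicit false

open Cardinal
open Pool.Agent.Helper69_LOTS

namespace Pool.Agent.MOO.H75R

open Pool.Agent.MOO

theorem pre_get (z : ℕ → Om) (L k : ℕ) (h : k < L) : (pre z L)[k]? = some (z k) := by
  unfold pre
  rw [List.getElem?_map, List.getElem?_range h]
  rfl

section
variable {x y : Om → ℝ} {ln : List Om → Om} {c : Set (Set Om) → Set Om}

/-- Parameters of a pattern. -/
abbrev Par : Type := Σ n : ℕ, ℕ × (Fin n → ℕ) × (Fin n → ℕ)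

/-- Codes of the lower part. -/
abbrev Tp : Type := List (Set Om) × List (Set Om) × List Om × List Om

/-- `r'` is in `D`, contains the lower part coded by `t`, and its other pairs come from `lz`. -/
def Ok (a : Par) (D : Set (RE x y ln c)) (t : Tp) (lz : List Om) (r' : RE x y ln c) : Prop :=
  r' ∈ D ∧ (∀ C ∈ t.1, ∃ N₁ ∈ r'.H, c N₁ = C) ∧ (∀ C ∈ t.2.1, ∃ N₁ ∈ r'.S, c N₁ = C) ∧
    (∀ q ∈ List.zip t.2.2.1 t.2.2.2, q ∈ r'.f) ∧
    (∀ q ∈ r'.f, q ∈ List.zip t.2.2.1 t.2.2.2 ∨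
      ∃ j, lz[a.2.2.1 j]? = some q.1 ∧ lz[a.2.2.2 j]? = some q.2)

/-- The set of codes of good lists. -/
def WW (a : Par) (D : Set (RE x y ln c)) (t : Tp) : Set Om :=
  {m | ∃ lz : List Om, lz.length = a.2.1 ∧ m = ln lz ∧ ∃ r', Ok a D t lz r'}

theorem exists_nbhd (F : Finset ℝ) (v : ℝ) :
    ∃ a b : ℚ, (a : ℝ) < v ∧ v < b ∧ ∀ w ∈ F, w ≠ v → w ≤ a ∨ (b : ℝ) ≤ w := by
  classical
  induction F using Finset.induction_on with
  | empty =>
    obtain ⟨a, ha⟩ := exists_rat_lt v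
    obtain ⟨b, hb⟩ := exists_rat_gt v
    exact ⟨a, b, ha, hb, fun w hw => absurd hw (Finset.notMem_empty w)⟩
  | insert u F hu ih =>
    obtain ⟨a, b, ha, hb, h⟩ := ih
    rcases lt_trichotomy u v with huv | huv | huv
    · obtain ⟨a', ha1, ha2⟩ := exists_rat_btwn (max_lt huv ha)
      refine ⟨a', b, ha2, hb, fun w hw hwv => ?_⟩
      rcases Finset.mem_insert.1 hw with rfl | hw
      · exact Or.inl (le_trans (le_max_left _ _) ha1.le)
      · rcases h w hw hwv with h1 | h1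
        · exact Or.inl (le_trans h1 (le_trans (le_max_right _ _) ha1.le))
        · exact Or.inr h1
    · refine ⟨a, b, ha, hb, fun w hw hwv => ?_⟩
      rcases Finset.mem_insert.1 hw with rfl | hw
      · exact absurd huv hwv
      · exact h w hw hwv
    · obtain ⟨b', hb1, hb2⟩ := exists_rat_btwn (lt_min huv hb)
      refine ⟨a, b', ha, hb1, fun w hw hwv => ?_⟩
      rcases Finset.mem_insert.1 hw with rfl | hw
      · exact Or.inr (le_trans hb2.le (min_le_left _ _))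
      · rcases h w hw hwv with h1 | h1
        · exact Or.inl h1
        · exact Or.inr (le_trans hb2.le (le_trans (min_le_right _ _) h1))

/-- Adding a hard model on top of a condition. -/
theorem add_top (p : RE x y ln c) (N : Set (Set Om)) (hN : Hard x y ln c N)
    (h1 : ∀ N₁, (N₁ ∈ p.H ∨ N₁ ∈ p.S) → Prec c N₁ N)
    (h2 : ∀ q ∈ p.f, q.1 < dlt N ∧ q.2 < dlt N) : ∃ q ≤ p, N ∈ q.H := by
  classical
  refine ⟨⟨p.f, insert N p.H, p.S, ?_, p.hS, ?_, p.fn, p.inc, ?_, ?_, ?_⟩, ?_, ?_⟩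
  · intro N' hN'
    rcases Finset.mem_insert.1 hN' with rfl | h
    · exact hN
    · exact p.hH N' h
  · intro N1 N2 hN1 hN2 hne
    have e1 : N1 = N ∨ (N1 ∈ p.H ∨ N1 ∈ p.S) := by
      rcases hN1 with h | h
      · rcases Finset.mem_insert.1 h with h | h
        · exact Or.inl h
        · exact Or.inr (Or.inl h)
      · exact Or.inr (Or.inr h)
    have e2 : N2 = N ∨ (N2 ∈ p.H ∨ N2 ∈ p.S) := by
      rcases hN2 with h | h
      · rcases Finset.mem_insert.1 h with h | h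
        · exact Or.inl h
        · exact Or.inr (Or.inl h)
      · exact Or.inr (Or.inr h)
    rcases e1 with e1 | e1
    · rcases e2 with e2 | e2
      · exact absurd (e1.trans e2.symm) hne
      · right; rw [e1]; exact h1 N2 e2
    · rcases e2 with e2 | e2
      · left; rw [e2]; exact h1 N1 e1
      · exact p.ch N1 N2 e1 e2 hne
  · intro q hq N' hN'
    rcases Finset.mem_insert.1 hN' with rfl | h
    · exact ⟨fun _ => (h2 q hq).2, fun _ => (h2 q hq).1⟩
    · exact p.r1 q hq N' h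
  · intro q hq
    obtain ⟨N', h, h'⟩ := p.r2 q hq
    exact ⟨N', h.imp (fun h => Finset.mem_insert_of_mem h) id, h'⟩
  · intro q hq q' hq' hne
    obtain ⟨N', h, h'⟩ := p.r3 q hq q' hq' hne
    exact ⟨N', h.imp (fun h => Finset.mem_insert_of_mem h) id, h'⟩
  · exact ⟨Finset.Subset.refl _, Finset.subset_insert _ _, Finset.Subset.refl _⟩
  · exact Finset.mem_insert_self _ _

end

theorem rep (h1 : RcmStmt) (h2 : RsoStmt) (h3 : RamStmt) (h4 : ReaStmt) : RepStmt := by
  classical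
  intro x y ln c hx hy hln hc
  obtain ⟨-, hHard⟩ := h1 x y ln c hx hy hln hc
  let P := RE x y ln c
  have : Nonempty (RE x y ln c) :=
    ⟨⟨∅, ∅, ∅, by simp, by simp, by simp, by simp, by simp, by simp, by simp, by simp⟩⟩
  let X := P ⊕ (Set P ⊕ (Set Om ⊕ (List (Set Om) ⊕ (List Om ⊕ Tp))))
  let i1 : P → X := fun p => Sum.inl p
  let i2 : Set P → X := fun D => Sum.inr (Sum.inl D)
  let i3 : Set Om → X := fun W => Sum.inr (Sum.inr (Sum.inl W))
  let i4 : List (Set Om) → X := fun W => Sum.inr (Sum.inr (Sum.inr (Sum.inl W)))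
  let i5 : List Om → X := fun W => Sum.inr (Sum.inr (Sum.inr (Sum.inr (Sum.inl W))))
  let i6 : Tp → X := fun W => Sum.inr (Sum.inr (Sum.inr (Sum.inr (Sum.inr W))))
  have j1 : Function.Injective i1 := fun a b h => Sum.inl.inj h
  have j2 : Function.Injective i2 := fun a b h => Sum.inl.inj (Sum.inr.inj h)
  have j3 : Function.Injective i3 := fun a b h => Sum.inl.inj (Sum.inr.inj (Sum.inr.inj h))
  have j4 : Function.Injective i4 := fun a b h =>
    Sum.inl.inj (Sum.inr.inj (Sum.inr.inj (Sum.inr.inj h)))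
  have j5 : Function.Injective i5 := fun a b h =>
    Sum.inl.inj (Sum.inr.inj (Sum.inr.inj (Sum.inr.inj (Sum.inr.inj h))))
  have j6 : Function.Injective i6 := fun a b h =>
    Sum.inr.inj (Sum.inr.inj (Sum.inr.inj (Sum.inr.inj (Sum.inr.inj h))))
  have : Nonempty X := ⟨i3 ∅⟩
  have : Nonempty (Set Om) := ⟨∅⟩
  have j0 : Function.Injective (fun ξ : Om => i3 {ξ}) := fun a b h => by
    have := j3 h
    simpa using this
  have hij : Function.Injective (Sum.elim i1 i2) := by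
    intro a b h
    rcases a with a | a <;> rcases b with b | b
    · rw [j1 h]
    · exact absurd h (by intro h; exact absurd h (by simp [i1, i2]))
    · exact absurd h (by intro h; exact absurd h (by simp [i1, i2]))
    · rw [j2 h]
  refine proper_of_ambient (i := i1) (j := i2) hij ?_
  have cA : CM (fun M : Set X => Hard x y ln c (i3 ⁻¹' M)) := CM.lift j3 hHard
  have cB : CM (fun M : Set X => ∀ p : P, i1 p ∈ M →
      i3 '' ((⋃ N₁ ∈ {N | N ∈ p.H ∨ N ∈ p.S}, (N₁ ∪ {c N₁, {dlt N₁}})) ∪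
        ⋃ q ∈ p.f, {{q.1}, {q.2}}) ⊆ M) := by
    refine CM.swallow j1 _ (fun p => Set.Countable.image ?_ _)
    refine Set.Countable.union ?_ ?_
    · refine Set.Countable.biUnion ?_ ?_
      · have : {N | N ∈ p.H ∨ N ∈ p.S} = ((p.H ∪ p.S : Finset _) : Set (Set (Set Om))) := by
          ext N; simp
        rw [this]
        exact Finset.countable_toSet _
      · intro N₁ hN₁
        refine Set.Countable.union ?_ (Set.Finite.countable (Set.toFinite _))
        rcases hN₁ with h | h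
        · exact (p.hH N₁ h).cnt
        · exact (p.hS N₁ h).cnt
    · refine Set.Countable.biUnion (Finset.countable_toSet _) ?_
      intro q hq
      exact Set.Finite.countable (Set.toFinite _)
  have cC : CM (fun M : Set X => ∀ l : List (Set Om), (∀ a ∈ l, i3 a ∈ M) →
      (∃ d, d = l) → ∃ d, i4 d ∈ M ∧ d = l) := CM.skolemTL j3 (fun l d => d = l)
  have cD : CM (fun M : Set X => ∀ l : List Om, (∀ a ∈ l, i3 {a} ∈ M) →
      (∃ d, d = l) → ∃ d, i5 d ∈ M ∧ d = l) := CM.skolemTL j0 (fun l d => d = l)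
  have cE : CM (fun M : Set X => ∀ a b d e, i4 a ∈ M → i4 b ∈ M → i5 d ∈ M → i5 e ∈ M →
      (∃ t : Tp, t = (a, b, d, e)) → ∃ t : Tp, i6 t ∈ M ∧ t = (a, b, d, e)) :=
    CM.skolem4 j4 j4 j5 j5 (fun a b d e t => t = (a, b, d, e))
  have cF : CM (fun M : Set X => ∀ a : Par, ∀ D t, i2 D ∈ M → i6 t ∈ M →
      (∃ W, W = WW a D t) → ∃ W, i3 W ∈ M ∧ W = WW a D t) := by
    have : Nonempty Par := ⟨⟨0, 0, fun _ => 0, fun _ => 0⟩⟩
    exact CM.all (fun a => CM.skolem2 j2 j6 (fun D t W => W = WW a D t))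
  have cG : CM (fun M : Set X => ∀ a : Par, ∀ D t lz, i2 D ∈ M → i6 t ∈ M → i5 lz ∈ M →
      (∃ r', Ok a D t lz r') → ∃ r', i1 r' ∈ M ∧ Ok a D t lz r') := by
    have : Nonempty Par := ⟨⟨0, 0, fun _ => 0, fun _ => 0⟩⟩
    exact CM.all (fun a => CM.skolem3 j2 j6 j5 (fun D t lz r' => Ok a D t lz r'))
  refine (cA.and (cB.and (cC.and (cD.and (cE.and (cF.and cG)))))).mono ?_
  rintro M hMc ⟨hA, hB, hC, hD, hE, hF, hG⟩ p hp
  set N : Set (Set Om) := i3 ⁻¹' M with hNdef
  -- elements of M have their parts in N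
  have hPrec : ∀ p : P, i1 p ∈ M → ∀ N₁, (N₁ ∈ p.H ∨ N₁ ∈ p.S) → Prec c N₁ N := by
    intro p hp N₁ hN₁
    have h := hB p hp
    have hsub : N₁ ∪ {c N₁, {dlt N₁}} ⊆ N := by
      intro W hW
      apply h
      exact ⟨W, Or.inl (Set.mem_biUnion (show N₁ ∈ {N | N ∈ p.H ∨ N ∈ p.S} from hN₁) hW), rfl⟩
    refine ⟨fun W hW => hsub (Or.inl hW), hsub (Or.inr (by simp)), ?_⟩
    exact (hA.tr _).1 (hsub (Or.inr (by simp)))
  have hInd : ∀ p : P, i1 p ∈ M → ∀ q ∈ p.f, q.1 < dlt N ∧ q.2 < dlt N := by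
    intro p hp q hq
    have h := hB p hp
    have hsub : ({{q.1}, {q.2}} : Set (Set Om)) ⊆ N := by
      intro W hW
      apply h
      exact ⟨W, Or.inr (Set.mem_biUnion (show q ∈ (p.f : Set (Om × Om)) from hq) hW), rfl⟩
    exact ⟨(hA.tr _).1 (hsub (by simp)), (hA.tr _).1 (hsub (by simp))⟩
  obtain ⟨q, hqp, hNq⟩ := add_top p N hA (hPrec p hp) (hInd p hp)
  refine ⟨q, hqp, ?_⟩
  intro D hDd hDM r0 hr0
  obtain ⟨r, hrD, hrr0⟩ := hDd r0
  have hNr : N ∈ r.H := (hrr0.trans hr0).2.1 hNq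
  suffices hgoal : ∃ d ∈ D, i1 d ∈ M ∧ Comp d r by
    obtain ⟨d, hd1, hd2, s, hs1, hs2⟩ := hgoal
    exact ⟨d, hd1, hd2, s, hs1, hs2.trans hrr0⟩
  obtain ⟨n, L, px, py, z, Nc, hPat, hz, hzf, hNc, hzne⟩ := h2 x y ln c r N hNr
  -- lower part
  let cH : List (Set Om) := ((r.H.filter (fun N₁ => Prec c N₁ N)).toList).map c
  let cS : List (Set Om) := ((r.S.filter (fun N₁ => Prec c N₁ N)).toList).map c
  let lf : List (Om × Om) := (r.f.filter (fun q => q.1 < dlt N)).toList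
  have hlow : ∀ q ∈ r.f, q.1 < dlt N → q.2 < dlt N := fun q hq h => (r.r1 q hq N hNr).1 h
  have hcH : ∀ C ∈ cH, i3 C ∈ M := by
    intro C hC
    simp only [cH, List.mem_map, Finset.mem_toList, Finset.mem_filter] at hC
    obtain ⟨N₁, ⟨-, hpr⟩, rfl⟩ := hC
    exact hpr.2.1
  have hcS : ∀ C ∈ cS, i3 C ∈ M := by
    intro C hC
    simp only [cS, List.mem_map, Finset.mem_toList, Finset.mem_filter] at hC
    obtain ⟨N₁, ⟨-, hpr⟩, rfl⟩ := hC
    exact hpr.2.1
  have hlf1 : ∀ ξ ∈ lf.map Prod.fst, i3 {ξ} ∈ M := by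
    intro ξ hξ
    simp only [lf, List.mem_map, Finset.mem_toList, Finset.mem_filter] at hξ
    obtain ⟨q, ⟨hq, hq1⟩, rfl⟩ := hξ
    exact (hA.tr _).2 hq1
  have hlf2 : ∀ ξ ∈ lf.map Prod.snd, i3 {ξ} ∈ M := by
    intro ξ hξ
    simp only [lf, List.mem_map, Finset.mem_toList, Finset.mem_filter] at hξ
    obtain ⟨q, ⟨hq, hq1⟩, rfl⟩ := hξ
    exact (hA.tr _).2 (hlow q hq hq1)
  obtain ⟨_, mH, rfl⟩ := hC cH hcH ⟨_, rfl⟩
  obtain ⟨_, mS, rfl⟩ := hC cS hcS ⟨_, rfl⟩
  obtain ⟨_, m1, rfl⟩ := hD _ hlf1 ⟨_, rfl⟩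
  obtain ⟨_, m2, rfl⟩ := hD _ hlf2 ⟨_, rfl⟩
  obtain ⟨t, mT, ht⟩ := hE _ _ _ _ mH mS m1 m2 ⟨_, rfl⟩
  have hzip : List.zip (lf.map Prod.fst) (lf.map Prod.snd) = lf := by
    generalize lf = l
    induction l with
    | nil => rfl
    | cons a l ih => simp [ih]
  have hmemlf : ∀ q, q ∈ List.zip t.2.2.1 t.2.2.2 ↔ q ∈ r.f ∧ q.1 < dlt N := by
    intro q
    rw [ht]
    simp only [hzip]
    simp [lf]
  let a : Par := ⟨n, L, px, py⟩
  have hOkr : Ok a D t (pre z L) r := by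
    refine ⟨hrD, ?_, ?_, ?_, ?_⟩
    · intro C hC
      rw [ht] at hC
      simp only [cH, List.mem_map, Finset.mem_toList, Finset.mem_filter] at hC
      obtain ⟨N₁, ⟨h, -⟩, rfl⟩ := hC
      exact ⟨N₁, h, rfl⟩
    · intro C hC
      rw [ht] at hC
      simp only [cS, List.mem_map, Finset.mem_toList, Finset.mem_filter] at hC
      obtain ⟨N₁, ⟨h, -⟩, rfl⟩ := hC
      exact ⟨N₁, h, rfl⟩
    · intro q hq
      exact ((hmemlf q).1 hq).1
    · intro q hq
      by_cases h : q.1 < dlt N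
      · exact Or.inl ((hmemlf q).2 ⟨hq, h⟩)
      · right
        obtain ⟨i, hi⟩ := (hzf q).1 ⟨hq, not_lt.1 h⟩
        refine ⟨i, ?_, ?_⟩
        · rw [pre_get z L _ (lt_trans (hPat.lt i) (hPat.ltL i)), hi]
        · rw [pre_get z L _ (hPat.ltL i), hi]
  obtain ⟨W, mW, hW⟩ := hF a D t hDM mT ⟨_, rfl⟩
  have hlen : ∀ z : ℕ → Om, (pre z L).length = L := by
    intro z; simp [pre]
  have hzW : ln (pre z L) ∈ W := by
    rw [hW]
    exact ⟨pre z L, hlen z, rfl, r, hOkr⟩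
  -- neighbourhoods
  have hnbx := fun i => exists_nbhd (r.f.image (fun q => x q.1)) (x (z (px i)))
  have hnby := fun i => exists_nbhd (r.f.image (fun q => y q.2)) (y (z (py i)))
  choose aa bb hax hbx habx using hnbx
  choose a' b' hay hby haby using hnby
  have hpi : ∀ i, (z (px i), z (py i)) ∈ r.f ∧ dlt N ≤ z (px i) := fun i => (hzf _).2 ⟨i, rfl⟩
  obtain ⟨z', hz'N, hz'W, hz'⟩ := h3 x y ln c hx hy hln N hA n L px py hPat z W Nc aa bb a' b'
    hz mW hzW (by
      intro i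
      obtain ⟨h5, h6, h7, h8⟩ := hNc i
      refine ⟨?_, ?_, h7, h8⟩
      · rcases h5 with h5 | h5
        · exact (r.hH _ h5).toSoft
        · exact r.hS _ h5
      · rcases h6 with h6 | h6
        · rw [h6]
        · exact h6.1) (fun i => ⟨hax i, hbx i, hay i, hby i⟩)
  rw [hW] at hz'W
  obtain ⟨lz, hlzL, hlz, hex⟩ := hz'W
  have hlz' := hln hlz
  subst hlz'
  have mz : ∀ ξ ∈ pre z' L, i3 {ξ} ∈ M := by
    intro ξ hξ
    unfold pre at hξ
    rw [List.mem_map] at hξ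
    obtain ⟨j, hj, rfl⟩ := hξ
    exact (hA.tr _).2 (hz'N j (List.mem_range.1 hj))
  obtain ⟨_, mlz, rfl⟩ := hD _ mz ⟨_, rfl⟩
  obtain ⟨r', mr', hOk⟩ := hG a D t _ hDM mT mlz hex
  obtain ⟨hr'D, hO1, hO2, hO3, hO4⟩ := hOk
  refine ⟨r', hr'D, mr', ?_⟩
  refine h4 x y ln c r r' N hNr (hPrec r' mr') ?_ ?_ (hInd r' mr') ?_ ?_
  · intro N₁ hN₁
    by_cases hne : N₁ = N
    · exact Or.inr (Or.inl hne)
    · rcases r.ch N₁ N (Or.inl hN₁) (Or.inl hNr) hne with h | h
      · left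
        obtain ⟨N₂, hN₂, hcc⟩ := hO1 (c N₁) (by
          rw [ht]
          simp only [cH, List.mem_map, Finset.mem_toList, Finset.mem_filter]
          exact ⟨N₁, ⟨hN₁, h⟩, rfl⟩)
        have : N₂ = N₁ := hc _ _ (r'.hH _ hN₂).cnt (r.hH _ hN₁).cnt hcc
        rw [← this]; exact hN₂
      · exact Or.inr (Or.inr h)
  · intro N₁ hN₁
    by_cases hne : N₁ = N
    · exact Or.inr (Or.inl hne)
    · rcases r.ch N₁ N (Or.inr hN₁) (Or.inl hNr) hne with h | h
      · left
        obtain ⟨N₂, hN₂, hcc⟩ := hO2 (c N₁) (by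
          rw [ht]
          simp only [cS, List.mem_map, Finset.mem_toList, Finset.mem_filter]
          exact ⟨N₁, ⟨hN₁, h⟩, rfl⟩)
        have : N₂ = N₁ := hc _ _ (r'.hS _ hN₂).cnt (r.hS _ hN₁).cnt hcc
        rw [← this]; exact hN₂
      · exact Or.inr (Or.inr h)
  · intro q hq
    by_cases h : q.1 < dlt N
    · left
      exact hO3 q ((hmemlf q).2 ⟨hq, h⟩)
    · right
      refine ⟨not_lt.1 h, not_lt.1 (fun h' => h ((r.r1 q hq N hNr).2 h'))⟩
  · intro q hq hqN q' hq'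
    obtain ⟨i, rfl⟩ := (hzf q).1 ⟨hq, hqN⟩
    rcases hO4 q' hq' with h | ⟨j, hj1, hj2⟩
    · have hq'r : q' ∈ r.f := ((hmemlf q').1 h).1
      exact ⟨r.inc _ hq _ hq'r, r.inc _ hq'r _ hq⟩
    · rw [pre_get z' L _ (lt_trans (hPat.lt j) (hPat.ltL j))] at hj1
      rw [pre_get z' L _ (hPat.ltL j)] at hj2
      have e1 : q'.1 = z' (px j) := (Option.some.inj hj1).symm
      have e2 : q'.2 = z' (py j) := (Option.some.inj hj2).symm
      rw [e1, e2]
      obtain ⟨⟨k1, k2, k3, k4⟩, k5⟩ := hz' j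
      by_cases hij' : j = i
      · subst hij'
        dsimp only
        have hney : z' (py j) ≠ z (py j) := by
          intro h
          have h6 := hz'N (py j) (hPat.ltL j)
          have h7 := hz (py j) (hPat.ltL j)
          rw [h] at h6
          exact absurd h6 (not_lt.2 h7)
        refine ⟨fun h => ?_, fun h => k5.1 h⟩
        have h6 : ¬ y (z' (py j)) < y (z (py j)) := fun h' => absurd (k5.2 h') (not_lt.2 h.le)
        exact lt_of_le_of_ne (not_lt.1 h6) (fun h' => hney (hy h').symm)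
      · dsimp only
        obtain ⟨hne1, hne2⟩ := hzne i j (Ne.symm hij')
        have hmx : x (z (px i)) ∈ r.f.image (fun q => x q.1) :=
          Finset.mem_image.2 ⟨_, (hpi i).1, rfl⟩
        have hmy : y (z (py i)) ∈ r.f.image (fun q => y q.2) :=
          Finset.mem_image.2 ⟨_, (hpi i).1, rfl⟩
        have nx := habx j _ hmx (fun h => hne1 (hx h))
        have ny := haby j _ hmy (fun h => hne2 (hy h))
        have hI1 := r.inc _ (hpi i).1 _ (hpi j).1
        have hI2 := r.inc _ (hpi j).1 _ (hpi i).1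
        dsimp only at hI1 hI2
        refine ⟨fun h => ?_, fun h => ?_⟩
        · have h6 : x (z (px i)) ≤ aa j := by
            rcases nx with nx | nx
            · exact nx
            · exact absurd (lt_of_lt_of_le (lt_trans h k2) nx) (lt_irrefl _)
          have h7 := hI1 (lt_of_le_of_lt h6 (hax j))
          rcases ny with ny | ny
          · exact lt_of_le_of_lt ny k3
          · exact absurd (lt_of_lt_of_le (lt_trans h7 (hby j)) ny) (lt_irrefl _)
        · have h6 : (bb j : ℝ) ≤ x (z (px i)) := by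
            rcases nx with nx | nx
            · exact absurd (lt_of_le_of_lt nx (lt_trans k1 h)) (lt_irrefl _)
            · exact nx
          have h7 := hI2 (lt_of_lt_of_le (hbx j) h6)
          rcases ny with ny | ny
          · exact absurd (lt_of_le_of_lt ny (lt_trans (hay j) h7)) (lt_irrefl _)
          · exact lt_of_lt_of_le k4 ny

end Pool.Agent.MOO.H75R
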